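import Pool.Agent.H18.N6F.Targets

set_option autoImplicit false

open Polynomial NumberField IsDedekindDomain Matrix Pool.Agent.H32.QC Pool.Agent.H34.N6
  Pool.Agent.H18.N6F

namespace Pool.Agent.H69.N6F

theorem pf_CZP : T_CZP := by
  intro F _ h2 q d
  constructor
  · rintro ⟨b, hb, hz⟩
    have hv : b 0 ≠ 0 := hb.ne_zero 0
    have hq := hz 0 0
    set v := b 0 with hvdef
    refine ⟨![v 0, v 1, v 2, 0, 0, 0, 0], ?_, ?_, ?_⟩
    · intro h0
      apply hv
      funext i
      fin_cases i
      · exact congrFun h0 0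
      · exact congrFun h0 1
      · exact congrFun h0 2
    · simp [dotProduct, mulVec, Fin.sum_univ_seven, JJ]
    · refine Eq.trans ?_ hq
      simp [dotProduct, mulVec, Fin.sum_univ_seven, Fin.sum_univ_three, blk]
  · rintro z ⟨b, hb, hz⟩
    have hv : b 0 ≠ 0 := hb.ne_zero 0
    have hq := hz 0 0
    set v := b 0 with hvdef
    have hx : (![v 0, v 1, -(d / 2) * z ^ 2 * v 2, z * v 2, 0, 0, v 2] : Fin 7 → F) =
        v 0 • uv d z 0 + v 1 • uv d z 1 + v 2 • uv d z 2 := by
      funext i
      fin_cases i <;> simp [uv] <;> ring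
    refine ⟨![v 0, v 1, -(d / 2) * z ^ 2 * v 2, z * v 2, 0, 0, v 2], ?_, ?_, ?_⟩
    · intro h0
      apply hv
      funext i
      fin_cases i
      · exact congrFun h0 0
      · exact congrFun h0 1
      · exact congrFun h0 6
    · simp [dotProduct, mulVec, Fin.sum_univ_seven, JJ]
      field_simp
      ring
    · refine Eq.trans ?_ hq
      rw [hx]
      have e : ∀ i j, uv d z i ⬝ᵥ (q *ᵥ uv d z j) = gm q d z i j := fun i j => rfl
      simp only [mulVec_add, mulVec_smul, dotProduct_add, add_dotProduct, dotProduct_smul,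
        smul_dotProduct, smul_eq_mul, e]
      simp only [dotProduct, mulVec, Fin.sum_univ_three]
      ring

end Pool.Agent.H69.N6F
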